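import Pool.Agent.Q56.BT.Fam

/-!
# Covering `[1, N]` by one residue class for each prime near `N^α`: families of translates of blocks,
asymptotic form
-/

set_option autoImplicit false

open Finset Filter Topology

namespace Pool.Agent.Q56.BT

open Pool.Agent.H170R2.PC

open Classical in
theorem fam_asymp {α w ε A : ℝ} (hα : 1 / 2 < α) (hα1 : α < 1) (hw : 0 ≤ w) (hw1 : w ≤ 2 * α - 1)
    (hε : 0 < ε) (hA0 : 0 ≤ A) :
    ∀ᶠ N : ℕ in atTop, ∀ (τ : Type) (Ω : Finset τ) (s : τ → ℕ → ℕ) (a : (p : ℕ) → ZMod p)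
      (κ : ℕ → ℕ) (T : ℕ), (N : ℝ) ^ w ≤ T → (T : ℝ) ≤ (N : ℝ) ^ α →
      (∀ ω ∈ Ω, ∀ p : ℕ, InRange α N p → s ω (κ p) < T) →
      (∀ p : ℕ, InRange α N p →
        (({q : ℕ | InRange α N q ∧ κ q = κ p}.ncard : ℕ) : ℝ) ≤ (N : ℝ) ^ (α - w)) →
      (∀ p q : ℕ, InRange α N p → InRange α N q → κ p ≠ κ q → ∀ x y : ℕ, x < T → y < T →
        ((Ω.filter (fun ω => s ω (κ p) = x ∧ s ω (κ q) = y)).card : ℝ) * (T : ℝ) ^ 2 ≤ A * Ω.card) →
      ∀ c : ℝ, ((Ω.filter (fun ω =>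
          (coveredCount α N (move a κ (s ω)) : ℝ) < (N : ℝ) ^ c)).card : ℝ) ≤
        (N : ℝ) ^ (c - (2 - 2 * α + w) + ε) * Ω.card := by
  set η : ℝ := min (ε / 4) (1 / 2) with hη
  have hη0 : 0 < η := lt_min (by linarith) (by norm_num)
  have hηε : 2 * η ≤ ε / 2 := by
    have := min_le_left (ε / 4) (1 / 2 : ℝ)
    linarith
  have hη1 : η ≤ 1 / 2 := min_le_right _ _
  clear_value η
  have hα0 : 0 < α := by linarith
  filter_upwards [ev_card hα0 hα1.le hη0 (by linarith), ev_const 16 (show 0 < 1 - α by linarith),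
    ev_const (16 * (5 + 378 * A)) (show 0 < ε / 2 by linarith), eventually_ge_atTop 2,
    ev_const 2 (show 0 < 2 * α - 1 by linarith)]
    with N h1 h2 h4 hN2 h5 τ Ω s a κ T hT1 hT2 hs hK hpair c
  have hN0 : (0 : ℝ) < N := by exact_mod_cast (by omega : 0 < N)
  have hN1 : (1 : ℝ) ≤ N := by exact_mod_cast (by omega : 1 ≤ N)
  obtain ⟨X, hX⟩ : ∃ X, X = (N : ℝ) ^ α := ⟨_, rfl⟩
  obtain ⟨Q, hQ⟩ : ∃ Q, Q = ⌈2 * X⌉₊ := ⟨_, rfl⟩
  obtain ⟨Y, hY⟩ : ∃ Y, Y = ⌈X⌉₊ := ⟨_, rfl⟩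
  have hX1 : 1 ≤ X := by rw [hX]; exact Real.one_le_rpow hN1 hα0.le
  have hX2 : X ^ 2 = (N : ℝ) ^ (2 * α) := by
    rw [hX, ← Real.rpow_mul_natCast hN0.le]
    congr 1
    push_cast
    ring
  have hQ3 : (Q : ℝ) ≤ 3 * X := by
    have := Nat.ceil_lt_add_one (show 0 ≤ 2 * X by positivity)
    rw [← hQ] at this
    linarith
  have hXY : X ≤ Y := by rw [hY]; exact Nat.le_ceil _
  have hNα : (N : ℝ) ^ (1 - α) * X = N := by
    rw [hX, ← Real.rpow_add hN0]; simp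
  have h16 : 16 * X ≤ N := by
    rw [← hNα]; nlinarith
  have hNX : 2 * (N : ℝ) ≤ X ^ 2 := by
    have : X ^ 2 = (N : ℝ) ^ (2 * α - 1) * N := by
      rw [hX2]
      nth_rewrite 3 [← Real.rpow_one (N : ℝ)]
      rw [← Real.rpow_add hN0]
      congr 1
      ring
    rw [this]
    nlinarith
  have hNY : N < Y ^ 2 := by
    have : (N : ℝ) < (Y : ℝ) ^ 2 := by
      have : X ^ 2 ≤ (Y : ℝ) ^ 2 := pow_le_pow_left₀ (by linarith) hXY 2
      linarith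
    exact_mod_cast this
  have hTY : T ≤ Y := by
    have : (T : ℝ) ≤ Y := by rw [← hX] at hT2; exact hT2.trans hXY
    exact_mod_cast this
  have hT1' : (1 : ℝ) ≤ T := (Real.one_le_rpow hN1 hw).trans hT1
  have hT0 : 0 < T := by
    have : 1 ≤ T := by exact_mod_cast hT1'
    omega
  have hD : ∀ p ∈ PD α N, p.Prime ∧ p ≤ Q ∧ 2 * p ≤ N := by
    intro p hp
    obtain ⟨p1, p2, p3⟩ := mem_PD.1 hp
    rw [← hX] at p2 p3
    refine ⟨p1, ?_, ?_⟩
    · have : (p : ℝ) ≤ Q := by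
        rw [hQ]; exact p3.le.trans (Nat.le_ceil _)
      exact_mod_cast this
    · have : (2 : ℝ) * p ≤ N := by linarith
      exact_mod_cast this
  have hDY : ∀ p ∈ PD α N, p.Prime ∧ Y ≤ p := by
    intro p hp
    obtain ⟨p1, p2, p3⟩ := mem_PD.1 hp
    refine ⟨p1, ?_⟩
    rw [hY, hX]
    exact Nat.ceil_le.2 p2
  have hcardD : ((PD α N).card : ℝ) ≤ 3 * X := by
    have : (PD α N).card ≤ Q := by
      calc (PD α N).card ≤ (range ⌈2 * (N : ℝ) ^ α⌉₊).card := card_le_card (filter_subset _ _)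
        _ = Q := by rw [card_range, hQ, hX]
    have : ((PD α N).card : ℝ) ≤ Q := by exact_mod_cast this
    linarith
  have hcard0 : 0 < ((PD α N).card : ℝ) := lt_of_lt_of_le (Real.rpow_pos_of_pos hN0 _) h1
  obtain ⟨A₁, hA₁⟩ : ∃ A₁, A₁ = ∑ p ∈ PD α N, 1 / (p : ℝ) := ⟨_, rfl⟩
  have hAl : (N : ℝ) ^ (-η) / 2 ≤ A₁ := by
    rw [hA₁]
    calc (N : ℝ) ^ (-η) / 2 = (N : ℝ) ^ (α - η) * (1 / (2 * X)) := by
          have : (N : ℝ) ^ (α - η) = (N : ℝ) ^ (-η) * X := by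
            rw [hX, ← Real.rpow_add hN0]; congr 1; ring
          rw [this]
          field_simp
      _ ≤ (PD α N).card * (1 / (2 * X)) := by gcongr
      _ = ∑ _p ∈ PD α N, 1 / (2 * X) := by rw [sum_const, nsmul_eq_mul]
      _ ≤ _ := by
          refine sum_le_sum fun p hp => ?_
          obtain ⟨p1, p2, p3⟩ := mem_PD.1 hp
          rw [← hX] at p2 p3
          have hpR : (0 : ℝ) < p := by exact_mod_cast p1.pos
          exact one_div_le_one_div_of_le hpR p3.le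
  have hAu : A₁ ≤ 3 := by
    rw [hA₁]
    calc ∑ p ∈ PD α N, 1 / (p : ℝ) ≤ ∑ _p ∈ PD α N, 1 / X := by
          refine sum_le_sum fun p hp => ?_
          obtain ⟨p1, p2, p3⟩ := mem_PD.1 hp
          rw [← hX] at p2
          exact one_div_le_one_div_of_le (by linarith) p2
      _ = (PD α N).card * (1 / X) := by rw [sum_const, nsmul_eq_mul]
      _ ≤ (3 * X) * (1 / X) := by gcongr
      _ = 3 := by field_simp
  have hη' : 0 < (N : ℝ) ^ (-η) := Real.rpow_pos_of_pos hN0 _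
  have hA : 0 < A₁ := lt_of_lt_of_le (by positivity) hAl
  set B : Finset τ := Ω.filter
    (fun ω => (coveredCount α N (move a κ (s ω)) : ℝ) < (N : ℝ) ^ c) with hB
  -- the bound for the pairs
  have hKK : ∀ p ∈ PD α N, (((PD α N).filter (fun q => κ q = κ p)).card : ℝ) ≤ (N : ℝ) ^ (α - w) := by
    intro p hp
    have h := hK p (mem_PD.1 hp)
    have e : {q : ℕ | InRange α N q ∧ κ q = κ p} = (((PD α N).filter (fun q => κ q = κ p)) : Set ℕ) := by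
      ext q
      simp only [coe_filter, mem_PD, Set.mem_ofPred_eq]
    rw [e, Set.ncard_coe_finset] at h
    exact h
  have hoff := offd_sum (D := PD α N) (N := N) (Y := Y) (T := T) (A := A) (K := (N : ℝ) ^ (α - w))
    (a := a) (κ := κ) (s := s) (Ω := Ω) hA0 hDY hNY hTY hT0
    (fun ω hω p hp => hs ω hω p (mem_PD.1 hp)) hKK
    (fun p hp q hq => hpair p q (mem_PD.1 hp) (mem_PD.1 hq))
  have hsieve := sieve (D := PD α N) (Q := Q) (T := T) (I := II a T)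
    (fun p hp => ⟨(hD p hp).1, (hD p hp).2.1⟩) (fun p _ => II_sub a T p)
    (fun p hp => II_card a T p (hD p hp).1) N
  rw [← hA₁] at hsieve
  obtain ⟨V, hV⟩ : ∃ V : ℝ, V = (N : ℝ) ^ (2 * α - w) := ⟨_, rfl⟩
  have hV1 : (N : ℝ) ≤ V := by
    rw [hV]
    calc (N : ℝ) = (N : ℝ) ^ (1 : ℝ) := (Real.rpow_one _).symm
      _ ≤ _ := Real.rpow_le_rpow_of_exponent_le hN1 (by linarith)
  have hV2 : X ^ 2 = V * (N : ℝ) ^ w := by
    rw [hX2, hV, ← Real.rpow_add hN0]; congr 1; ring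
  have hV3 : X * (N : ℝ) ^ (α - w) = V := by
    rw [hX, hV, ← Real.rpow_add hN0]; congr 1; ring
  have hV0 : 0 < V := lt_of_lt_of_le hN0 hV1
  have hTR : (0 : ℝ) < T := by linarith
  -- `(N + Q ^ 2) / T ≤ 10 V`
  have hQT : ((N : ℝ) + (Q : ℝ) ^ 2) ≤ 10 * V * T := by
    have e1 : (Q : ℝ) ^ 2 ≤ 9 * X ^ 2 := by
      have : (Q : ℝ) ^ 2 ≤ (3 * X) ^ 2 := pow_le_pow_left₀ (Nat.cast_nonneg _) hQ3 2
      nlinarith
    have e2 : X ^ 2 ≤ V * T := by rw [hV2]; exact mul_le_mul_of_nonneg_left hT1 hV0.le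
    nlinarith
  have hM : (PD α N).card * (N : ℝ) ^ (α - w) + A / (T : ℝ) ^ 2 *
      ∑ n ∈ Icc 1 N, (∑ p ∈ PD α N, (if n % p ∈ II a T p then (1 : ℝ) else 0)) ^ 2 ≤
      (3 + 378 * A) * V := by
    have hKn : 0 ≤ (N : ℝ) ^ (α - w) := (Real.rpow_pos_of_pos hN0 _).le
    have e1 : (PD α N).card * (N : ℝ) ^ (α - w) ≤ 3 * V := by
      calc (PD α N).card * (N : ℝ) ^ (α - w) ≤ (3 * X) * (N : ℝ) ^ (α - w) := by gcongr
        _ = 3 * V := by rw [mul_assoc, hV3]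
    have e2 : 12 * ((N : ℝ) + (Q : ℝ) ^ 2) * (T * A₁) + 2 * N * (T * A₁) ^ 2 ≤
        378 * V * (T : ℝ) ^ 2 := by
      have f1 : 12 * ((N : ℝ) + (Q : ℝ) ^ 2) * (T * A₁) ≤ 12 * (10 * V * T) * (T * 3) := by
        gcongr
      have f2 : 2 * (N : ℝ) * (T * A₁) ^ 2 ≤ 2 * V * (T * 3) ^ 2 := by
        gcongr
      nlinarith
    have e3 : A / (T : ℝ) ^ 2 *
        ∑ n ∈ Icc 1 N, (∑ p ∈ PD α N, (if n % p ∈ II a T p then (1 : ℝ) else 0)) ^ 2 ≤
        378 * A * V := by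
      calc _ ≤ A / (T : ℝ) ^ 2 * (378 * V * (T : ℝ) ^ 2) :=
            mul_le_mul_of_nonneg_left (hsieve.trans e2) (by positivity)
        _ = _ := by field_simp
    nlinarith
  -- the exceptional members
  obtain ⟨L, hL⟩ : ∃ L : ℝ, L = (N : ℝ) / 2 * A₁ := ⟨_, rfl⟩
  have hLl : (N : ℝ) ^ (1 - η) / 4 ≤ L := by
    have : (N : ℝ) ^ (1 - η) = N * (N : ℝ) ^ (-η) := by
      nth_rewrite 2 [← Real.rpow_one (N : ℝ)]
      rw [← Real.rpow_add hN0]
      congr 1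
    rw [this, hL]
    nlinarith
  have hLu : L ≤ 2 * V := by
    rw [hL]; nlinarith
  have hL0 : 0 < L := by rw [hL]; positivity
  have hc0 : (0 : ℝ) < (N : ℝ) ^ c := Real.rpow_pos_of_pos hN0 _
  have hB1 : ∀ ω ∈ B, L ^ 2 ≤ (N : ℝ) ^ c * (L + ∑ n ∈ Icc 1 N, offd (PD α N) (move a κ (s ω)) n) := by
    intro ω hω
    rw [hB, mem_filter] at hω
    have h := cover_ge (D := PD α N) (N := N) (a := move a κ (s ω))
      (fun p hp => ⟨(hD p hp).1, (hD p hp).2.2⟩) (by omega) (by rw [← hA₁]; exact hA)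
    rw [← hA₁, ← hL] at h
    refine h.trans ?_
    have h0 : 0 ≤ ∑ n ∈ Icc 1 N, offd (PD α N) (move a κ (s ω)) n :=
      sum_nonneg fun n _ => offd_nonneg _ _ _
    refine mul_le_mul_of_nonneg_right ?_ (by linarith)
    rw [← coveredCount_eq]
    exact hω.2.le
  have hB2 : (B.card : ℝ) * L ^ 2 ≤ (N : ℝ) ^ c * (Ω.card * ((5 + 378 * A) * V)) := by
    calc (B.card : ℝ) * L ^ 2 = ∑ _ω ∈ B, L ^ 2 := by rw [sum_const, nsmul_eq_mul]
      _ ≤ ∑ ω ∈ B, (N : ℝ) ^ c * (L + ∑ n ∈ Icc 1 N, offd (PD α N) (move a κ (s ω)) n) :=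
          sum_le_sum hB1
      _ ≤ ∑ ω ∈ Ω, (N : ℝ) ^ c * (L + ∑ n ∈ Icc 1 N, offd (PD α N) (move a κ (s ω)) n) := by
          refine sum_le_sum_of_subset_of_nonneg (filter_subset _ _) fun ω _ _ => ?_
          have h0 : 0 ≤ ∑ n ∈ Icc 1 N, offd (PD α N) (move a κ (s ω)) n :=
            sum_nonneg fun n _ => offd_nonneg _ _ _
          positivity
      _ = (N : ℝ) ^ c * (Ω.card * L + ∑ ω ∈ Ω, ∑ n ∈ Icc 1 N, offd (PD α N) (move a κ (s ω)) n) := by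
          rw [← mul_sum, sum_add_distrib, sum_const, nsmul_eq_mul]
      _ ≤ (N : ℝ) ^ c * (Ω.card * (2 * V) + Ω.card * ((3 + 378 * A) * V)) := by
          refine mul_le_mul_of_nonneg_left ?_ hc0.le
          refine add_le_add (mul_le_mul_of_nonneg_left hLu (Nat.cast_nonneg _)) (hoff.trans ?_)
          exact mul_le_mul_of_nonneg_left hM (Nat.cast_nonneg _)
      _ = _ := by ring
  have hL2 : (N : ℝ) ^ (2 - 2 * η) / 16 ≤ L ^ 2 := by
    have e : (N : ℝ) ^ (2 - 2 * η) = ((N : ℝ) ^ (1 - η)) ^ 2 := by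
      rw [← Real.rpow_mul_natCast hN0.le]
      congr 1
      push_cast
      ring
    rw [e]
    have h0 : 0 ≤ (N : ℝ) ^ (1 - η) := (Real.rpow_pos_of_pos hN0 _).le
    calc ((N : ℝ) ^ (1 - η)) ^ 2 / 16 = ((N : ℝ) ^ (1 - η) / 4) ^ 2 := by ring
      _ ≤ L ^ 2 := pow_le_pow_left₀ (by positivity) hLl 2
  have hW : 0 < (N : ℝ) ^ (2 - 2 * η) := Real.rpow_pos_of_pos hN0 _
  refine le_of_mul_le_mul_right (a := (N : ℝ) ^ (2 - 2 * η)) ?_ hW
  calc (B.card : ℝ) * (N : ℝ) ^ (2 - 2 * η) = 16 * (B.card * ((N : ℝ) ^ (2 - 2 * η) / 16)) := by ring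
    _ ≤ 16 * (B.card * L ^ 2) := by gcongr
    _ ≤ 16 * ((N : ℝ) ^ c * (Ω.card * ((5 + 378 * A) * V))) := by gcongr
    _ = (16 * (5 + 378 * A)) * ((N : ℝ) ^ c * V) * Ω.card := by ring
    _ ≤ (N : ℝ) ^ (ε / 2) * ((N : ℝ) ^ c * V) * Ω.card := by gcongr
    _ = (N : ℝ) ^ (ε / 2 + c + (2 * α - w)) * Ω.card := by
        rw [hV, ← Real.rpow_add hN0, ← Real.rpow_add hN0]
        congr 2
        ring
    _ ≤ (N : ℝ) ^ (c - (2 - 2 * α + w) + ε + (2 - 2 * η)) * Ω.card := by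
        refine mul_le_mul_of_nonneg_right ?_ (Nat.cast_nonneg _)
        exact Real.rpow_le_rpow_of_exponent_le hN1 (by linarith)
    _ = _ := by
        rw [Real.rpow_add hN0 (c - (2 - 2 * α + w) + ε)]
        ring

end Pool.Agent.Q56.BT
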