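import Pool.Agent.Q56.BT.Gen

/-!
# Covering `[1, N]` by one residue class for each prime near `N^α`: families of translates of the
blocks of a partition of the primes
-/

set_option autoImplicit false

open Finset Filter Topology

namespace Pool.Agent.Q56.BT

open Pool.Agent.H170R2.PC

/-- the choice `a`, the class at a prime `p` of colour `κ p` being moved by `s (κ p)` -/
def move (a : (p : ℕ) → ZMod p) (κ : ℕ → ℕ) (s : ℕ → ℕ) : (p : ℕ) → ZMod p :=
  fun p => a p + (s (κ p) : ZMod p)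

/-- the classes modulo `p` which are translates by less than `T` of the class `a p` -/
def II (a : (p : ℕ) → ZMod p) (T p : ℕ) : Finset ℕ :=
  (range p).filter (fun r => ((r : ZMod p) - a p).val < T)

lemma II_sub (a : (p : ℕ) → ZMod p) (T p : ℕ) : II a T p ⊆ range p := filter_subset _ _

lemma II_card (a : (p : ℕ) → ZMod p) (T p : ℕ) (hp : p.Prime) : (II a T p).card ≤ T := by
  have : NeZero p := ⟨hp.ne_zero⟩
  calc (II a T p).card ≤ (range T).card := by
        refine card_le_card_of_injOn (fun r => ((r : ZMod p) - a p).val) ?_ ?_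
        · intro r hr
          simp only [II, coe_filter, mem_range, Set.mem_ofPred_eq] at hr
          simp only [coe_range, Set.mem_Iio]
          exact hr.2
        · intro r hr r' hr' h
          simp only [II, coe_filter, mem_range, Set.mem_ofPred_eq] at hr hr'
          have h1 := ZMod.val_injective p h
          have h2 : (r : ZMod p) = r' := by
            have := congrArg (fun z => z + a p) h1
            simpa using this
          have h3 := (ZMod.natCast_eq_natCast_iff r r' p).mp h2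
          exact h3.eq_of_lt_of_lt hr.1 hr'.1
    _ = T := card_range T

lemma mem_II {a : (p : ℕ) → ZMod p} {T p n : ℕ} (hp : p.Prime) :
    n % p ∈ II a T p ↔ ((n : ZMod p) - a p).val < T := by
  have : NeZero p := ⟨hp.ne_zero⟩
  unfold II
  rw [mem_filter, mem_range, ZMod.natCast_mod]
  exact ⟨fun h => h.2, fun h => ⟨Nat.mod_lt _ hp.pos, h⟩⟩

lemma val_of {a : (p : ℕ) → ZMod p} {T p n s : ℕ} (hs : s < T) (hT : T ≤ p)
    (h : (n : ZMod p) = a p + (s : ZMod p)) : ((n : ZMod p) - a p).val = s := by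
  rw [h, add_sub_cancel_left]
  exact ZMod.val_natCast_of_lt (lt_of_lt_of_le hs hT)

open Classical in
lemma pair_same {a : (p : ℕ) → ZMod p} {N Y p q : ℕ} (hp : p.Prime) (hq : q.Prime) (hpq : p ≠ q)
    (hYp : Y ≤ p) (hYq : Y ≤ q) (hN : N < Y ^ 2) :
    ∑ n ∈ Icc 1 N, (if (n : ZMod p) = a p then (1 : ℝ) else 0) *
      (if (n : ZMod q) = a q then (1 : ℝ) else 0) ≤ 1 := by
  have e : ∀ n : ℕ, (if (n : ZMod p) = a p then (1 : ℝ) else 0) *
      (if (n : ZMod q) = a q then (1 : ℝ) else 0) =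
      if ((n : ZMod p) = a p ∧ (n : ZMod q) = a q) then (1 : ℝ) else 0 := by
    intro n
    by_cases h1 : (n : ZMod p) = a p <;> by_cases h2 : (n : ZMod q) = a q <;> simp [h1, h2]
  simp only [e]
  rw [← sum_filter, sum_const, nsmul_eq_mul, mul_one]
  have : ((Icc 1 N).filter (fun n : ℕ => (n : ZMod p) = a p ∧ (n : ZMod q) = a q)).card ≤ 1 := by
    rw [card_le_one]
    intro z hz z' hz'
    rw [mem_filter] at hz hz'
    exact class_unique hp hq hpq hYp hYq hN hz.1 hz'.1 (hz.2.1.trans hz'.2.1.symm)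
      (hz.2.2.trans hz'.2.2.symm)
  exact_mod_cast this

open Classical in
lemma pair_diff {τ : Type} {Ω : Finset τ} {s : τ → ℕ → ℕ} {a : (p : ℕ) → ZMod p} {κ : ℕ → ℕ}
    {T p q n : ℕ} {A : ℝ} (hp : p.Prime) (hq : q.Prime) (hTp : T ≤ p) (hTq : T ≤ q) (hT0 : 0 < T)
    (hs : ∀ ω ∈ Ω, s ω (κ p) < T ∧ s ω (κ q) < T)
    (hA : ∀ x y : ℕ, x < T → y < T →
      ((Ω.filter (fun ω => s ω (κ p) = x ∧ s ω (κ q) = y)).card : ℝ) * (T : ℝ) ^ 2 ≤ A * Ω.card) :
    ∑ ω ∈ Ω, (if (n : ZMod p) = move a κ (s ω) p then (1 : ℝ) else 0) *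
      (if (n : ZMod q) = move a κ (s ω) q then (1 : ℝ) else 0) ≤
      A * Ω.card / (T : ℝ) ^ 2 * ((if n % p ∈ II a T p then (1 : ℝ) else 0) *
        (if n % q ∈ II a T q then (1 : ℝ) else 0)) := by
  have hTR : (0 : ℝ) < (T : ℝ) ^ 2 := by positivity
  by_cases h1 : n % p ∈ II a T p
  · by_cases h2 : n % q ∈ II a T q
    · rw [if_pos h1, if_pos h2, mul_one, mul_one, le_div_iff₀ hTR]
      have h1' := (mem_II hp).1 h1
      have h2' := (mem_II hq).1 h2
      refine le_trans ?_ (hA _ _ h1' h2')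
      refine mul_le_mul_of_nonneg_right ?_ hTR.le
      rw [card_filter]
      push_cast
      refine sum_le_sum fun ω hω => ?_
      by_cases h3 : (n : ZMod p) = move a κ (s ω) p
      · by_cases h4 : (n : ZMod q) = move a κ (s ω) q
        · rw [if_pos h3, if_pos h4, mul_one, if_pos]
          exact ⟨(val_of (hs ω hω).1 hTp h3).symm, (val_of (hs ω hω).2 hTq h4).symm⟩
        · rw [if_neg h4, mul_zero]
          split_ifs <;> norm_num
      · rw [if_neg h3, zero_mul]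
        split_ifs <;> norm_num
    · rw [if_neg h2, mul_zero, mul_zero]
      refine le_of_eq (sum_eq_zero fun ω hω => ?_)
      rw [if_neg (c := (n : ZMod q) = move a κ (s ω) q), mul_zero]
      intro h4
      apply h2
      rw [mem_II hq, val_of (hs ω hω).2 hTq h4]
      exact (hs ω hω).2
  · rw [if_neg h1, zero_mul, mul_zero]
    refine le_of_eq (sum_eq_zero fun ω hω => ?_)
    rw [if_neg (c := (n : ZMod p) = move a κ (s ω) p), zero_mul]
    intro h4
    apply h1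
    rw [mem_II hp, val_of (hs ω hω).1 hTp h4]
    exact (hs ω hω).1

/-- the pairs, on average over the family -/
lemma offd_sum {τ : Type} {Ω : Finset τ} {s : τ → ℕ → ℕ} {a : (p : ℕ) → ZMod p} {κ : ℕ → ℕ}
    {D : Finset ℕ} {N Y T : ℕ} {A K : ℝ} (hA0 : 0 ≤ A)
    (hD : ∀ p ∈ D, p.Prime ∧ Y ≤ p) (hN : N < Y ^ 2) (hTY : T ≤ Y) (hT0 : 0 < T)
    (hs : ∀ ω ∈ Ω, ∀ p ∈ D, s ω (κ p) < T)
    (hK : ∀ p ∈ D, ((D.filter (fun q => κ q = κ p)).card : ℝ) ≤ K)
    (hA : ∀ p ∈ D, ∀ q ∈ D, κ p ≠ κ q → ∀ x y : ℕ, x < T → y < T →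
      ((Ω.filter (fun ω => s ω (κ p) = x ∧ s ω (κ q) = y)).card : ℝ) * (T : ℝ) ^ 2 ≤ A * Ω.card) :
    ∑ ω ∈ Ω, ∑ n ∈ Icc 1 N, offd D (move a κ (s ω)) n ≤
      Ω.card * (D.card * K + A / (T : ℝ) ^ 2 *
        ∑ n ∈ Icc 1 N, (∑ p ∈ D, (if n % p ∈ II a T p then (1 : ℝ) else 0)) ^ 2) := by
  classical
  have hTR : (0 : ℝ) < (T : ℝ) ^ 2 := by positivity
  have hC : 0 ≤ A * Ω.card / (T : ℝ) ^ 2 := by positivity
  have hterm : ∀ p ∈ D, ∀ q ∈ D.erase p,
      ∑ ω ∈ Ω, ∑ n ∈ Icc 1 N, (if (n : ZMod p) = move a κ (s ω) p then (1 : ℝ) else 0) *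
        (if (n : ZMod q) = move a κ (s ω) q then (1 : ℝ) else 0) ≤
      (if κ q = κ p then (Ω.card : ℝ) else 0) + A * Ω.card / (T : ℝ) ^ 2 *
        ∑ n ∈ Icc 1 N, ((if n % p ∈ II a T p then (1 : ℝ) else 0) *
          (if n % q ∈ II a T q then (1 : ℝ) else 0)) := by
    intro p hp q hq
    obtain ⟨hqp, hqD⟩ := mem_erase.1 hq
    have h0 : 0 ≤ A * Ω.card / (T : ℝ) ^ 2 *
        ∑ n ∈ Icc 1 N, ((if n % p ∈ II a T p then (1 : ℝ) else 0) *
          (if n % q ∈ II a T q then (1 : ℝ) else 0)) :=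
      mul_nonneg hC (sum_nonneg fun n _ => by split_ifs <;> norm_num)
    by_cases hκ : κ q = κ p
    · rw [if_pos hκ]
      have : ∑ ω ∈ Ω, ∑ n ∈ Icc 1 N, (if (n : ZMod p) = move a κ (s ω) p then (1 : ℝ) else 0) *
          (if (n : ZMod q) = move a κ (s ω) q then (1 : ℝ) else 0) ≤ ∑ _ω ∈ Ω, (1 : ℝ) :=
        sum_le_sum fun ω _ => pair_same (hD p hp).1 (hD q hqD).1 (Ne.symm hqp) (hD p hp).2
          (hD q hqD).2 hN
      rw [sum_const, nsmul_eq_mul, mul_one] at this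
      linarith
    · rw [if_neg hκ, zero_add, sum_comm, mul_sum]
      refine sum_le_sum fun n _ => ?_
      exact pair_diff (hD p hp).1 (hD q hqD).1 (hTY.trans (hD p hp).2) (hTY.trans (hD q hqD).2) hT0
        (fun ω hω => ⟨hs ω hω p hp, hs ω hω q hqD⟩) (hA p hp q hqD (Ne.symm hκ))
  have e1 : ∑ ω ∈ Ω, ∑ n ∈ Icc 1 N, offd D (move a κ (s ω)) n =
      ∑ p ∈ D, ∑ q ∈ D.erase p, ∑ ω ∈ Ω, ∑ n ∈ Icc 1 N,
        (if (n : ZMod p) = move a κ (s ω) p then (1 : ℝ) else 0) *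
        (if (n : ZMod q) = move a κ (s ω) q then (1 : ℝ) else 0) := by
    unfold offd
    calc ∑ ω ∈ Ω, ∑ n ∈ Icc 1 N, ∑ p ∈ D, ∑ q ∈ D.erase p,
          (if (n : ZMod p) = move a κ (s ω) p then (1 : ℝ) else 0) *
          (if (n : ZMod q) = move a κ (s ω) q then (1 : ℝ) else 0)
        = ∑ ω ∈ Ω, ∑ p ∈ D, ∑ q ∈ D.erase p, ∑ n ∈ Icc 1 N,
          (if (n : ZMod p) = move a κ (s ω) p then (1 : ℝ) else 0) *
          (if (n : ZMod q) = move a κ (s ω) q then (1 : ℝ) else 0) := by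
          refine sum_congr rfl fun ω _ => ?_
          rw [sum_comm]
          refine sum_congr rfl fun p _ => ?_
          rw [sum_comm]
      _ = _ := by
          rw [sum_comm]
          refine sum_congr rfl fun p _ => ?_
          rw [sum_comm]
  rw [e1]
  have e2 : ∀ p ∈ D, ∑ q ∈ D.erase p, ∑ ω ∈ Ω, ∑ n ∈ Icc 1 N,
        (if (n : ZMod p) = move a κ (s ω) p then (1 : ℝ) else 0) *
        (if (n : ZMod q) = move a κ (s ω) q then (1 : ℝ) else 0) ≤
      Ω.card * K + A * Ω.card / (T : ℝ) ^ 2 * ∑ q ∈ D,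
        ∑ n ∈ Icc 1 N, ((if n % p ∈ II a T p then (1 : ℝ) else 0) *
          (if n % q ∈ II a T q then (1 : ℝ) else 0)) := by
    intro p hp
    calc _ ≤ ∑ q ∈ D.erase p, ((if κ q = κ p then (Ω.card : ℝ) else 0) +
          A * Ω.card / (T : ℝ) ^ 2 *
          ∑ n ∈ Icc 1 N, ((if n % p ∈ II a T p then (1 : ℝ) else 0) *
            (if n % q ∈ II a T q then (1 : ℝ) else 0))) := sum_le_sum (hterm p hp)
      _ ≤ ∑ q ∈ D, ((if κ q = κ p then (Ω.card : ℝ) else 0) +
          A * Ω.card / (T : ℝ) ^ 2 *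
          ∑ n ∈ Icc 1 N, ((if n % p ∈ II a T p then (1 : ℝ) else 0) *
            (if n % q ∈ II a T q then (1 : ℝ) else 0))) := by
          refine sum_le_sum_of_subset_of_nonneg (erase_subset _ _) fun q _ _ => ?_
          refine add_nonneg (by split_ifs <;> positivity) (mul_nonneg hC ?_)
          exact sum_nonneg fun n _ => by split_ifs <;> norm_num
      _ = (∑ q ∈ D, if κ q = κ p then (Ω.card : ℝ) else 0) + A * Ω.card / (T : ℝ) ^ 2 * ∑ q ∈ D,
          ∑ n ∈ Icc 1 N, ((if n % p ∈ II a T p then (1 : ℝ) else 0) *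
            (if n % q ∈ II a T q then (1 : ℝ) else 0)) := by
          rw [sum_add_distrib, mul_sum]
      _ ≤ _ := by
          refine add_le_add ?_ le_rfl
          rw [← sum_filter, sum_const, nsmul_eq_mul, mul_comm]
          exact mul_le_mul_of_nonneg_left (hK p hp) (Nat.cast_nonneg _)
  refine (sum_le_sum e2).trans (le_of_eq ?_)
  rw [sum_add_distrib, sum_const, nsmul_eq_mul, ← mul_sum]
  have e3 : ∑ p ∈ D, ∑ q ∈ D, ∑ n ∈ Icc 1 N, ((if n % p ∈ II a T p then (1 : ℝ) else 0) *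
      (if n % q ∈ II a T q then (1 : ℝ) else 0)) =
      ∑ n ∈ Icc 1 N, (∑ p ∈ D, (if n % p ∈ II a T p then (1 : ℝ) else 0)) ^ 2 := by
    simp only [sq, sum_mul_sum]
    calc ∑ p ∈ D, ∑ q ∈ D, ∑ n ∈ Icc 1 N, ((if n % p ∈ II a T p then (1 : ℝ) else 0) *
          (if n % q ∈ II a T q then (1 : ℝ) else 0))
        = ∑ p ∈ D, ∑ n ∈ Icc 1 N, ∑ q ∈ D, ((if n % p ∈ II a T p then (1 : ℝ) else 0) *
          (if n % q ∈ II a T q then (1 : ℝ) else 0)) := by
          refine sum_congr rfl fun p _ => ?_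
          rw [sum_comm]
      _ = _ := by rw [sum_comm]
  rw [e3]
  ring

end Pool.Agent.Q56.BT
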