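import Pool.Agent.H170R2.PC.Asym
import Pool.Agent.H174R3.D6.TaskLS

/-!
# Covering `[1, N]` by one residue class for each prime near `N^α`: translates of blocks of primes

The finite inequalities. `rr D a n` is the number of the primes of `D` whose class contains `n`.
The lemmas `cls_card'`, `total'` are the lemmas of the same purpose in
`Pool.Agent.Results.MP_bb5cc8_nt.AlmostAllChoices`, `LinesOfChoices`.
-/

set_option autoImplicit false

open Finset Filter Topology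

namespace Pool.Agent.Q56.BT

open Pool.Agent.H170R2.PC

open Classical in
/-- the number of the primes of `D` whose class contains `n` -/
noncomputable def rr (D : Finset ℕ) (a : (p : ℕ) → ZMod p) (n : ℕ) : ℝ :=
  ∑ p ∈ D, (if (n : ZMod p) = a p then (1 : ℝ) else 0)

lemma rr_nonneg (D : Finset ℕ) (a : (p : ℕ) → ZMod p) (n : ℕ) : 0 ≤ rr D a n := by
  unfold rr
  exact sum_nonneg fun p _ => by split_ifs <;> norm_num

lemma cls_card' {N p r : ℕ} (hp : 0 < p) (hr : r < p) :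
    N / p ≤ ((Icc 1 N).filter (fun n => n % p = r)).card := by
  have h : ((range (N / p)).image (fun k => if r = 0 then (k + 1) * p else r + k * p)) ⊆
      (Icc 1 N).filter (fun n => n % p = r) := by
    intro x hx
    rw [mem_image] at hx
    obtain ⟨k, hk, rfl⟩ := hx
    rw [mem_range] at hk
    have h1 : (k + 1) * p ≤ N := by
      calc (k + 1) * p ≤ (N / p) * p := Nat.mul_le_mul_right _ hk
        _ ≤ N := Nat.div_mul_le_self _ _
    rw [mem_filter, mem_Icc]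
    split_ifs with h0
    · subst h0
      exact ⟨⟨Nat.mul_pos (Nat.succ_pos _) hp, h1⟩, Nat.mul_mod_left _ _⟩
    · have h2 : (k + 1) * p = k * p + p := by ring
      refine ⟨⟨by omega, by omega⟩, ?_⟩
      rw [Nat.add_mul_mod_self_right, Nat.mod_eq_of_lt hr]
  have h2 := card_le_card h
  rw [card_image_of_injective, card_range] at h2
  · exact h2
  · intro x y hxy
    simp only at hxy
    split_ifs at hxy with h0
    · have := Nat.eq_of_mul_eq_mul_right hp hxy
      omega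
    · have : x * p = y * p := by omega
      exact Nat.eq_of_mul_eq_mul_right hp this

/-- every choice covers with multiplicity -/
lemma total' {D : Finset ℕ} {N : ℕ} {a : (p : ℕ) → ZMod p}
    (hD : ∀ p ∈ D, p.Prime ∧ 2 * p ≤ N) :
    (N : ℝ) / 2 * ∑ p ∈ D, 1 / (p : ℝ) ≤ ∑ n ∈ Icc 1 N, rr D a n := by
  classical
  unfold rr
  rw [sum_comm, mul_sum]
  refine sum_le_sum fun p hp => ?_
  obtain ⟨hp1, hp3⟩ := hD p hp
  have : NeZero p := ⟨hp1.ne_zero⟩
  have hpR : (0 : ℝ) < p := by exact_mod_cast hp1.pos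
  rw [← sum_filter, sum_const, nsmul_eq_mul, mul_one]
  have e : (Icc 1 N).filter (fun n : ℕ => (n : ZMod p) = a p) =
      (Icc 1 N).filter (fun n => n % p = (a p).val) := by
    ext n
    simp only [mem_filter]
    refine and_congr_right fun _ => ?_
    rw [← ZMod.val_natCast]
    exact ⟨fun h => by rw [h], fun h => ZMod.val_injective p h⟩
  have h3 := cls_card' (N := N) (r := (a p).val) hp1.pos (ZMod.val_lt _)
  have h5 : (N : ℝ) / p < ((N / p : ℕ) : ℝ) + 1 := by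
    rw [div_lt_iff₀ hpR]
    have h6 : N < (N / p + 1) * p := by
      have := Nat.lt_div_mul_add (a := N) (b := p) hp1.pos
      rw [add_mul, one_mul]; exact this
    exact_mod_cast h6
  have h7 : 2 ≤ N / p := by
    rw [Nat.le_div_iff_mul_le hp1.pos]; exact hp3
  have h7' : (2 : ℝ) ≤ ((N / p : ℕ) : ℝ) := by exact_mod_cast h7
  rw [← e] at h3
  have h3' : ((N / p : ℕ) : ℝ) ≤
    (((Icc 1 N).filter (fun n : ℕ => (n : ZMod p) = a p)).card : ℝ) := by exact_mod_cast h3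
  have h9 : (N : ℝ) / 2 * (1 / (p : ℝ)) = (N : ℝ) / p / 2 := by ring
  rw [h9]
  linarith

open Classical in
/-- the number of the pairs of different primes of `D` whose classes both contain `n` -/
noncomputable def offd (D : Finset ℕ) (a : (p : ℕ) → ZMod p) (n : ℕ) : ℝ :=
  ∑ p ∈ D, ∑ q ∈ D.erase p, (if (n : ZMod p) = a p then (1 : ℝ) else 0) *
    (if (n : ZMod q) = a q then (1 : ℝ) else 0)

lemma offd_nonneg (D : Finset ℕ) (a : (p : ℕ) → ZMod p) (n : ℕ) : 0 ≤ offd D a n := by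
  unfold offd
  exact sum_nonneg fun p _ => sum_nonneg fun q _ => by split_ifs <;> norm_num

lemma rr_sq (D : Finset ℕ) (a : (p : ℕ) → ZMod p) (n : ℕ) :
    rr D a n ^ 2 = rr D a n + offd D a n := by
  classical
  unfold rr offd
  rw [sq, sum_mul_sum, ← sum_add_distrib]
  refine sum_congr rfl fun p hp => ?_
  rw [← add_sum_erase D _ hp]
  congr 1
  split_ifs <;> norm_num

/-- the number of covered integers from the pairs -/
lemma cover_ge {D : Finset ℕ} {N : ℕ} {a : (p : ℕ) → ZMod p}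
    (hD : ∀ p ∈ D, p.Prime ∧ 2 * p ≤ N) (hN : 0 < N) (hA : 0 < ∑ p ∈ D, 1 / (p : ℝ)) :
    ((N : ℝ) / 2 * ∑ p ∈ D, 1 / (p : ℝ)) ^ 2 ≤ ((Cov D a N).card : ℝ) *
      ((N : ℝ) / 2 * ∑ p ∈ D, 1 / (p : ℝ) + ∑ n ∈ Icc 1 N, offd D a n) := by
  classical
  set L : ℝ := (N : ℝ) / 2 * ∑ p ∈ D, 1 / (p : ℝ) with hL
  have hNR : (0 : ℝ) < N := by exact_mod_cast hN
  have hL0 : 0 < L := by positivity
  set Y : ℝ := ∑ n ∈ Icc 1 N, offd D a n with hY
  have hY0 : 0 ≤ Y := sum_nonneg fun n _ => offd_nonneg _ _ _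
  set R : ℝ := ∑ n ∈ Icc 1 N, rr D a n with hR
  have hLR : L ≤ R := total' hD
  have hf : ∑ n ∈ Cov D a N, rr D a n = R := by
    apply sum_subset
    · exact filter_subset _ _
    · intro n hn hnS
      unfold rr
      refine sum_eq_zero fun p hp => ?_
      rw [if_neg]
      intro h
      apply hnS
      simp only [Cov, mem_filter]
      exact ⟨hn, p, hp, h⟩
  have h1 : R ^ 2 ≤ ((Cov D a N).card : ℝ) * (R + Y) := by
    calc R ^ 2 = (∑ n ∈ Cov D a N, rr D a n) ^ 2 := by rw [hf]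
      _ ≤ ((Cov D a N).card : ℝ) * ∑ n ∈ Cov D a N, rr D a n ^ 2 := sq_sum_le_card_mul_sum_sq
      _ ≤ ((Cov D a N).card : ℝ) * ∑ n ∈ Icc 1 N, rr D a n ^ 2 := by
          refine mul_le_mul_of_nonneg_left ?_ (Nat.cast_nonneg _)
          exact sum_le_sum_of_subset_of_nonneg (filter_subset _ _) fun _ _ _ => sq_nonneg _
      _ = _ := by
          simp only [rr_sq]
          rw [sum_add_distrib]
  set S : ℝ := ((Cov D a N).card : ℝ) with hS
  have hS0 : 0 ≤ S := Nat.cast_nonneg _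
  have hR0 : 0 < R := lt_of_lt_of_le hL0 hLR
  clear_value L Y R S
  -- multiply by `L / R`
  have h2 : L * R ^ 2 ≤ (S * (L + Y)) * R := by
    have h3 : L * R ^ 2 ≤ L * (S * (R + Y)) := mul_le_mul_of_nonneg_left h1 hL0.le
    have h4 : L * (S * Y) ≤ R * (S * Y) := mul_le_mul_of_nonneg_right hLR (by positivity)
    nlinarith
  have h5 : L * R ≤ S * (L + Y) := by
    refine le_of_mul_le_mul_right (a := R) ?_ hR0
    calc L * R * R = L * R ^ 2 := by ring
      _ ≤ _ := h2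
  calc L ^ 2 = L * L := sq L
    _ ≤ L * R := mul_le_mul_of_nonneg_left hLR hL0.le
    _ ≤ _ := h5

/-- the large sieve for the integers in at most `T` classes modulo every prime -/
lemma sieve {D : Finset ℕ} {Q T : ℕ} {I : ℕ → Finset ℕ} (hD : ∀ p ∈ D, p.Prime ∧ p ≤ Q)
    (hI : ∀ p ∈ D, I p ⊆ range p) (hT : ∀ p ∈ D, (I p).card ≤ T) (N : ℕ) :
    ∑ n ∈ Icc 1 N, (∑ p ∈ D, (if n % p ∈ I p then (1 : ℝ) else 0)) ^ 2 ≤
      12 * ((N : ℝ) + (Q : ℝ) ^ 2) * (T * ∑ p ∈ D, 1 / (p : ℝ)) +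
        2 * N * (T * ∑ p ∈ D, 1 / (p : ℝ)) ^ 2 := by
  classical
  have hLS := Pool.Agent.H174R3.D6LS.taskLS N Q D I (D.image (fun p => ({p} : Finset ℕ)))
    (fun _ => 1) (fun q hq => (hD q hq).1) hI (by
      intro s hs
      rw [mem_image] at hs
      obtain ⟨p, hp, rfl⟩ := hs
      refine ⟨by simpa using hp, ?_⟩
      rw [prod_singleton]
      exact (hD p hp).2)
  have hinj : Set.InjOn (fun p : ℕ => ({p} : Finset ℕ)) (D : Set ℕ) :=
    (singleton_injective).injOn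
  simp only [one_mul, one_pow] at hLS
  rw [sum_image hinj] at hLS
  simp only [prod_singleton] at hLS
  simp only [sum_image hinj, prod_singleton] at hLS
  have hV : ∑ p ∈ D, ((I p).card : ℝ) / p ≤ T * ∑ p ∈ D, 1 / (p : ℝ) := by
    rw [mul_sum]
    refine sum_le_sum fun p hp => ?_
    rw [mul_one_div]
    have : ((I p).card : ℝ) ≤ T := by exact_mod_cast hT p hp
    gcongr
  have hV0 : 0 ≤ ∑ p ∈ D, ((I p).card : ℝ) / p := sum_nonneg fun p _ => by positivity
  set V : ℝ := ∑ p ∈ D, ((I p).card : ℝ) / p with hVd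
  set W : ℝ := T * ∑ p ∈ D, 1 / (p : ℝ) with hW
  have hs : ∀ n : ℕ, (∑ p ∈ D, (if n % p ∈ I p then (1 : ℝ) else 0)) ^ 2 ≤
      2 * (∑ p ∈ D, ((if n % p ∈ I p then (1 : ℝ) else 0) - ((I p).card : ℝ) / p)) ^ 2 + 2 * V ^ 2 := by
    intro n
    rw [sum_sub_distrib, ← hVd]
    nlinarith [sq_nonneg ((∑ p ∈ D, (if n % p ∈ I p then (1 : ℝ) else 0)) - 2 * V)]
  calc ∑ n ∈ Icc 1 N, (∑ p ∈ D, (if n % p ∈ I p then (1 : ℝ) else 0)) ^ 2
      ≤ ∑ n ∈ Icc 1 N, (2 * (∑ p ∈ D, ((if n % p ∈ I p then (1 : ℝ) else 0) -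
        ((I p).card : ℝ) / p)) ^ 2 + 2 * V ^ 2) := sum_le_sum fun n _ => hs n
    _ = 2 * ∑ n ∈ Icc 1 N, (∑ p ∈ D, ((if n % p ∈ I p then (1 : ℝ) else 0) -
        ((I p).card : ℝ) / p)) ^ 2 + N * (2 * V ^ 2) := by
        rw [sum_add_distrib, mul_sum, sum_const, Nat.card_Icc, nsmul_eq_mul, Nat.add_sub_cancel]
    _ ≤ 2 * (6 * ((N : ℝ) + (Q : ℝ) ^ 2) * V) + N * (2 * V ^ 2) := by gcongr
    _ ≤ 2 * (6 * ((N : ℝ) + (Q : ℝ) ^ 2) * W) + N * (2 * W ^ 2) := by gcongr
    _ = _ := by ring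

end Pool.Agent.Q56.BT
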